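import Pool.Agent.Work.MP_64ea0f_cs.InterfaceF

set_option autoImplicit false

/-! # Block ESS: a power of `x` whose parabolic closure is that of all its powers -/

namespace Pool.CS

theorem ESS_mem_cp (D : Rd) (g w : D.W) (J : Set D.S) : w ∈ D.cp g J ↔ g⁻¹ * w * g ∈ D.par J := by
  unfold Rd.cp
  rw [Subgroup.mem_map]
  constructor
  · rintro ⟨y, hy, hyw⟩
    have h1 : g * y * g⁻¹ = w := hyw
    have h2 : g⁻¹ * w * g = y := by rw [← h1]; group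
    rw [h2]; exact hy
  · intro h
    refine ⟨g⁻¹ * w * g, h, ?_⟩
    change g * (g⁻¹ * w * g) * g⁻¹ = w
    group

/-- `ess_thm` -/
theorem ess_thm (hPCL : Stmt_PCL) (hRNK : Stmt_RNK) : Stmt_ESS := by
  classical
  intro D x n0 hn0
  let P : ℕ → Prop := fun r => ∃ m : ℕ, 0 < m ∧ n0 ∣ m ∧ ∃ (g : D.W) (J : Set D.S), J.ncard = r ∧
    x ^ m ∈ D.cp g J ∧ ∀ (g' : D.W) (J' : Set D.S), x ^ m ∈ D.cp g' J' → D.cp g J ≤ D.cp g' J'
  have key : ∀ m : ℕ, ∃ (g : D.W) (J : Set D.S), x ^ m ∈ D.cp g J ∧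
      ∀ (g' : D.W) (J' : Set D.S), x ^ m ∈ D.cp g' J' → D.cp g J ≤ D.cp g' J' := by
    intro m
    obtain ⟨⟨g, J, h1, h2⟩, -⟩ := hPCL D (Subgroup.zpowers (x ^ m))
    refine ⟨g, J, h1 (Subgroup.mem_zpowers _), fun g' J' h' => h2 g' J' ?_⟩
    rw [Subgroup.zpowers_le]
    exact h'
  have hex : ∃ r, P r := by
    obtain ⟨g, J, h1, h2⟩ := key n0
    exact ⟨J.ncard, n0, hn0, dvd_rfl, g, J, rfl, h1, h2⟩
  obtain ⟨m, hm, hdvd, g, J, hJ, hmem, hmin⟩ := Nat.find_spec hex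
  refine ⟨m, hm, hdvd, g, J, (ESS_mem_cp D g _ J).1 hmem, ?_⟩
  intro n hn g' J' hg'
  have hpow : (g⁻¹ * x ^ m * g) ^ n = g⁻¹ * x ^ (m * n) * g := by
    have h := conj_pow (i := n) (a := g⁻¹) (b := x ^ m)
    rw [inv_inv] at h
    rw [h, pow_mul]
  rw [hpow] at hg'
  -- the parabolic closure of the power `m * n`
  obtain ⟨g1, J1, hmem1, hmin1⟩ := key (m * n)
  have hle1 : D.cp g1 J1 ≤ D.cp g J := by
    refine hmin1 g J ?_
    rw [pow_mul]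
    exact Subgroup.pow_mem _ hmem n
  obtain ⟨hr1, hr2, -⟩ := hRNK D g1 g J1 J hle1
  have hr3 : J.ncard ≤ J1.ncard := by
    rw [hJ]
    refine Nat.find_min' hex ⟨m * n, Nat.mul_pos hm hn, hdvd.mul_right n, g1, J1, rfl, hmem1, hmin1⟩
  have heq : D.cp g1 J1 = D.cp g J := hr2 (le_antisymm hr1 hr3)
  have hle2 : D.cp g J ≤ D.cp (g * g') J' := by
    rw [← heq]
    refine hmin1 (g * g') J' ?_
    rw [ESS_mem_cp] at hg' ⊢
    have h3 : (g * g')⁻¹ * x ^ (m * n) * (g * g') = g'⁻¹ * (g⁻¹ * x ^ (m * n) * g) * g' := by group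
    rw [h3]; exact hg'
  intro w hw
  have h4 : g * w * g⁻¹ ∈ D.cp g J := by
    rw [ESS_mem_cp]
    have h5 : g⁻¹ * (g * w * g⁻¹) * g = w := by group
    rw [h5]; exact hw
  have h6 := hle2 h4
  rw [ESS_mem_cp] at h6 ⊢
  have h7 : (g * g')⁻¹ * (g * w * g⁻¹) * (g * g') = g'⁻¹ * w * g' := by group
  rw [h7] at h6
  exact h6

end Pool.CS
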