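import Pool.Agent.Work.MP_64ea0f_cs.InterfaceF

set_option autoImplicit false

/-! # Block PER: `par J` and `par (perp J)` -/

namespace Pool.CS

/-- `per_thm` -/
theorem per_thm (hB : Stmt_BAS) (hP : Stmt_PAR) : Stmt_PER := by
  classical
  intro D J
  obtain ⟨b1, b2, b3, b4, b5, b6, he, hact, hneg, hrf, hrf2, hconj, hrfn, hre, b15, b16⟩ := hB D
  -- the generators commute
  have hgen : ∀ s ∈ J, ∀ t ∈ D.perp J, D.σ s * D.σ t = D.σ t * D.σ s := by
    intro s hs t ht
    have hk : D.k t s = 0 := ht s hs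
    have h1 : D.ρ (D.σ s) (D.e t) = D.e t := by
      have h2 := hrf (D.e s) (he s) (D.e t)
      rw [hre s, b3 t s, hk] at h2
      rw [h2]
      simp
    have h3 := hconj (D.e t) (he t) (D.σ s)
    rw [h1, hre t] at h3
    calc D.σ s * D.σ t = D.σ s * D.σ t * (D.σ s)⁻¹ * D.σ s := by group
      _ = D.σ t * D.σ s := by rw [← h3]
  have hcomm : ∀ x ∈ D.par J, ∀ y ∈ D.par (D.perp J), x * y = y * x := by
    intro x hx y hy
    have h1 : D.par J ≤ Subgroup.centralizer (D.par (D.perp J) : Set D.W) := by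
      unfold Rd.par
      rw [Subgroup.closure_le]
      rintro _ ⟨s, hs, rfl⟩
      change D.σ s ∈ Subgroup.centralizer _
      rw [Subgroup.mem_centralizer_iff]
      intro z hz
      have h2 : Subgroup.closure (D.σ '' D.perp J) ≤ Subgroup.centralizer {D.σ s} := by
        rw [Subgroup.closure_le]
        rintro _ ⟨t, ht, rfl⟩
        change D.σ t ∈ Subgroup.centralizer _
        rw [Subgroup.mem_centralizer_iff]
        intro u hu
        rw [Set.mem_singleton_iff] at hu
        rw [hu]
        exact hgen s hs t ht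
      have h3 := h2 hz
      rw [Subgroup.mem_centralizer_iff] at h3
      exact (h3 (D.σ s) rfl).symm
    have h4 := h1 hx
    rw [Subgroup.mem_centralizer_iff] at h4
    exact (h4 y hy).symm
  have hmono1 : D.par J ≤ D.par (J ∪ D.perp J) :=
    Subgroup.closure_mono (Set.image_mono Set.subset_union_left)
  have hmono2 : D.par (D.perp J) ≤ D.par (J ∪ D.perp J) :=
    Subgroup.closure_mono (Set.image_mono Set.subset_union_right)
  refine ⟨hcomm, ?_, ?_, hmono1, hmono2⟩
  · rw [eq_bot_iff]
    intro w hw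
    rw [Subgroup.mem_bot]
    obtain ⟨hw1, hw2⟩ := Subgroup.mem_inf.1 hw
    have hN1 := ((hP D J).1 w).1 hw1
    have hN2 := ((hP D (D.perp J)).1 w).1 hw2
    have hN : ∀ φ, φ ∉ D.N w := by
      intro φ hφ
      have h0 : φ = 0 := by
        funext s
        by_cases h : s ∈ J
        · refine hN2 φ hφ s ?_
          intro h'
          have h1 : D.k s s = 0 := h' s h
          rw [D.diag s] at h1
          exact one_ne_zero h1
        · exact hN1 φ hφ s h
      have h1 := b6 φ hφ.1.1
      rw [h0, b4 0] at h1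
      simp at h1
    refine D.triv w fun s t => ?_
    have h2 := hN (D.e s)
    have h3 : D.e s ∈ D.Ps := by
      refine ⟨he s, fun t => ?_⟩
      unfold Rd.e
      by_cases hst : t = s
      · rw [hst, Pi.single_eq_same]; exact zero_le_one
      · rw [Pi.single_eq_of_ne hst]
    have h4 : D.ρ w (D.e s) ∈ D.Ps := by
      by_contra h
      exact h2 ⟨h3, h⟩
    exact h4.2 t
  · intro z hz
    unfold Rd.par at hz
    induction hz using Subgroup.closure_induction with
    | mem z hz =>
      obtain ⟨s, hs, rfl⟩ := hz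
      rcases hs with hs | hs
      · exact ⟨D.σ s, Subgroup.subset_closure ⟨s, hs, rfl⟩, 1, Subgroup.one_mem _, by rw [mul_one]⟩
      · exact ⟨1, Subgroup.one_mem _, D.σ s, Subgroup.subset_closure ⟨s, hs, rfl⟩, by rw [one_mul]⟩
    | one => exact ⟨1, Subgroup.one_mem _, 1, Subgroup.one_mem _, by rw [mul_one]⟩
    | mul a b ha hb iha ihb =>
      obtain ⟨x, hx, y, hy, rfl⟩ := iha
      obtain ⟨x', hx', y', hy', rfl⟩ := ihb
      refine ⟨x * x', Subgroup.mul_mem _ hx hx', y * y', Subgroup.mul_mem _ hy hy', ?_⟩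
      have h1 := hcomm x' hx' y hy
      calc x * y * (x' * y') = x * (y * x') * y' := by group
        _ = x * (x' * y) * y' := by rw [h1]
        _ = x * x' * (y * y') := by group
    | inv a ha iha =>
      obtain ⟨x, hx, y, hy, rfl⟩ := iha
      refine ⟨x⁻¹, Subgroup.inv_mem _ hx, y⁻¹, Subgroup.inv_mem _ hy, ?_⟩
      rw [hcomm x hx y hy, mul_inv_rev]

end Pool.CS
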